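import Mathlib

set_option autoImplicit false

/-!
# Set mappings on the successor of a singular cardinal: basic facts

The files of this folder generalise the starting modules `Pool.Agent.Helper113`
(`aleph_omega`) to arbitrary singular strong limit cardinals `lam` with `2 ^ lam = lam⁺`.
-/

namespace Pool.Agent.W907.FreeSet

open Cardinal Set

universe u

/-- a filtration of the cardinal `lam` by smaller cardinals, indexed by a short well-order -/
structure Fil (lam : Cardinal.{u}) (I : Type u) [LinearOrder I] where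
  al : I → Cardinal.{u}
  inf : ∀ i, ℵ₀ ≤ al i
  card : ∀ i, #I ≤ al i
  succ_le : ∀ i j, i < j → Order.succ (al i) ≤ al j
  below : ∀ i, ∃ c, ℵ₀ ≤ c ∧ #I ≤ c ∧ c < al i ∧ ∀ j < i, al j ≤ c
  lt : ∀ i, al i < lam
  succ_lt : ∀ i, Order.succ (al i) ≤ lam
  sup : ∀ c, (∀ i, al i ≤ c) → lam ≤ c
  pow : ∀ i, (2 : Cardinal.{u}) ^ al i ≤ lam
  base : ℵ₀ ≤ lam
  cardI : #I ≤ lam

namespace Fil

variable {lam : Cardinal.{u}} {I : Type u} [LinearOrder I]

theorem mono (F : Fil lam I) {i j : I} (h : i ≤ j) : F.al i ≤ F.al j := by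
  rcases lt_or_eq_of_le h with h | h
  · exact (Order.le_succ _).trans (F.succ_le i j h)
  · rw [h]

theorem le (F : Fil lam I) (i : I) : F.al i ≤ lam := (F.lt i).le

end Fil

/-- unions of few small sets are small -/
theorem small_iUnion {ι α : Type u} {c : Cardinal.{u}} (hc : ℵ₀ ≤ c) (hι : #ι ≤ c)
    (f : ι → Set α) (hf : ∀ i, #(f i) ≤ c) : #(⋃ i, f i) ≤ c := by
  refine (Cardinal.mk_iUnion_le f).trans ?_
  calc #ι * (⨆ i, #(f i)) ≤ c * c := mul_le_mul' hι (ciSup_le' hf)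
    _ = c := Cardinal.mul_eq_self hc

theorem small_biUnion {ι α : Type u} {c : Cardinal.{u}} (hc : ℵ₀ ≤ c) (s : Set ι) (hs : #s ≤ c)
    (f : ι → Set α) (hf : ∀ i ∈ s, #(f i) ≤ c) : #(⋃ i ∈ s, f i) ≤ c := by
  rw [biUnion_eq_iUnion]
  exact small_iUnion hc hs _ (fun i => hf i.1 i.2)

theorem small_union {α : Type u} {c : Cardinal.{u}} (hc : ℵ₀ ≤ c) {s t : Set α}
    (hs : #s ≤ c) (ht : #t ≤ c) : #(s ∪ t : Set α) ≤ c := by
  refine (Cardinal.mk_union_le s t).trans ?_
  calc #s + #t ≤ c + c := add_le_add hs ht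
    _ = c := Cardinal.add_eq_self hc

theorem small_mono {α : Type u} {c : Cardinal.{u}} {s t : Set α} (h : s ⊆ t) (ht : #t ≤ c) :
    #s ≤ c := (Cardinal.mk_le_mk_of_subset h).trans ht

theorem small_subsingleton {α : Type u} {c : Cardinal.{u}} (hc : ℵ₀ ≤ c) {s : Set α}
    (hs : s.Subsingleton) : #s ≤ c := by
  have : s.Finite := hs.finite
  exact (this.lt_aleph0).le.trans hc

theorem not_small_diff {α : Type u} {c : Cardinal.{u}} (hc : ℵ₀ ≤ c) {s t : Set α}
    (hs : ¬ #s ≤ c) (ht : #t ≤ c) : ¬ #(s \ t : Set α) ≤ c := by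
  intro h
  apply hs
  refine small_mono (t := (s \ t) ∪ t) ?_ (small_union hc h ht)
  intro x hx
  by_cases hxt : x ∈ t
  · exact Or.inr hxt
  · exact Or.inl ⟨hx, hxt⟩

theorem exists_of_not_small {α : Type u} {c : Cardinal.{u}} {s : Set α}
    (hs : ¬ #s ≤ c) : s.Nonempty := by
  by_contra h
  rw [Set.not_nonempty_iff_eq_empty] at h
  apply hs
  rw [h]
  simp

/-- a set of size larger than `c` is not covered by few small sets. -/
theorem exists_not_mem_biUnion {ι α : Type u} {c : Cardinal.{u}} (hc : ℵ₀ ≤ c) (s : Set ι)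
    (hs : #s ≤ c) (f : ι → Set α) (E : Set α) (hE : ¬ #E ≤ c)
    (hf : ∀ i ∈ s, #(E ∩ f i : Set α) ≤ c) : ∃ x ∈ E, ∀ i ∈ s, x ∉ f i := by
  by_contra h
  push Not at h
  apply hE
  refine small_mono (t := ⋃ i ∈ s, E ∩ f i) ?_ (small_biUnion hc s hs _ hf)
  intro x hx
  obtain ⟨i, hi, hxi⟩ := h x hx
  simp only [mem_iUnion]
  exact ⟨i, hi, hx, hxi⟩

end Pool.Agent.W907.FreeSet
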