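import Pool.Agent.W907.FreeSet.Graph

set_option autoImplicit false
set_option linter.deprecated false

namespace Pool.Agent.W907.FreeSet

open Cardinal Set

universe u

/-- the set mapping on an abstract well-order of type `lam⁺` -/
theorem core {lam : Cardinal.{u}} {I : Type u} [LinearOrder I] (F : Fil lam I)
    {K : Type u} [LinearOrder K] [WellFoundedLT K] [Nonempty K]
    (hpow : (2 : Cardinal.{u}) ^ lam = Order.succ lam)
    (hK : #K = Order.succ lam) (hI : ∀ a : K, #(Iio a) ≤ lam) :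
    ∃ N : K → Set K, (∀ α, N α ⊆ Iio α) ∧
      (∀ A : Set K, (∀ γ, ∃ α ∈ A, γ < α) → ∃ α ∈ A, ∃ x ∈ A, x ∈ N α) ∧
      (∀ α β : K, β < α → #(N α ∩ N β : Set K) < lam) := by
  obtain ⟨D, E, hE⟩ := main_setup F hK hI hpow
  obtain ⟨X, hX⟩ := exists_graph D E
  refine ⟨Nb X, fun α => nb_sub (hX α), ?_, ?_⟩
  · intro A hA
    obtain ⟨n0, hn0⟩ := cat_of_unbounded hK hI D A hA
    have h1 : ∀ n, ∃ δ, n0 ≤ n → E n δ ⊆ A ∧ Good D n δ (E n δ) := by
      intro n
      by_cases hn : n0 ≤ n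
      · obtain ⟨δ, hδ⟩ := hE n A (hn0 n hn)
        exact ⟨δ, fun _ => hδ⟩
      · exact ⟨Classical.arbitrary K, fun h => absurd h hn⟩
    choose δ hδ using h1
    obtain ⟨i, hi⟩ := D.capture (fun n => {δ n}) (fun n =>
      small_subsingleton (F.inf n) subsingleton_singleton)
    obtain ⟨b, hb⟩ := strict_bound F.base hK hI ({i} ∪ range δ) (by
      refine small_union F.base ?_ ?_
      · exact small_subsingleton F.base subsingleton_singleton
      · exact Cardinal.mk_range_le.trans F.cardI)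
    obtain ⟨α, hαA, hbα⟩ := hA b
    obtain ⟨n1, hn1⟩ := hi α ((hb i (Or.inl rfl)).trans hbα)
    let n := max n0 n1
    obtain ⟨hsub, hgood⟩ := hδ n (le_max_left _ _)
    have hmem : δ n ∈ D.D n α := hn1 n (le_max_right _ _)
      ⟨rfl, (hb _ (Or.inr ⟨n, rfl⟩)).trans hbα⟩
    obtain ⟨x, hxX, hxE⟩ := (hX α).hit n (δ n) hmem hgood
    exact ⟨α, hαA, x, hsub hxE, mem_iUnion.2 ⟨n, hxX⟩⟩
  · intro α β hβα
    obtain ⟨n, hn⟩ := D.union α β hβα
    refine lt_of_le_of_lt (small_mono (t := ⋃ m ∈ Iio n, X α m) ?_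
      (small_biUnion (F.inf n) (Iio n) ((Cardinal.mk_set_le _).trans (F.card n)) _
        (fun m hm => ((hX α).card m).trans (F.mono (le_of_lt hm))))) (F.lt n)
    rintro x ⟨hxα, hxβ⟩
    obtain ⟨m, hm⟩ := mem_iUnion.1 hxα
    simp only [mem_iUnion]
    refine ⟨m, ?_, hm⟩
    by_contra hnot
    have h2 : β ∈ D.D m α := D.mono n m α (not_lt.1 hnot) hn
    exact (hX α).disj m β h2 x hm hxβ

/-- the filtration exists for a singular strong limit cardinal -/
theorem exists_fil {lam : Cardinal.{u}} (hs : lam.IsSingular)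
    (hl : ∀ κ < lam, (2 : Cardinal.{u}) ^ κ < lam) :
    Nonempty (Fil lam lam.ord.cof.ord.ToType) := by
  classical
  set I : Type u := lam.ord.cof.ord.ToType with hIdef
  have hcardI : #I = lam.ord.cof := Cardinal.mk_ord_toType _
  have hIlt : #I < lam := by rw [hcardI]; exact hs.cof_ord_lt
  have h0 : ℵ₀ ≤ lam := hs.aleph0_le
  have hsucc : ∀ κ < lam, Order.succ κ < lam := fun κ hκ => by
    exact hs.isSuccLimit.succ_lt hκ
  have h00 : ℵ₀ < lam := by
    refine lt_of_le_of_ne h0 ?_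
    intro h
    exact Cardinal.not_isSingular_aleph0 (h ▸ hs)
  obtain ⟨ι, f, hf, hι⟩ := Ordinal.exists_lsub_cof lam.ord
  obtain ⟨e⟩ : Nonempty (I ≃ ι) := Cardinal.eq.1 (by rw [hι, hcardI])
  let h : I → Cardinal.{u} := fun i => (f (e i)).card
  have hh : ∀ i, h i < lam := by
    intro i
    rw [← Cardinal.lt_ord]
    rw [← hf]
    exact Ordinal.lt_lsub _ _
  have hcof : ∀ c < lam, ∃ i, c ≤ h i := by
    intro c hc
    have h1 : c.ord < Ordinal.lsub.{u, u} f := by
      rw [hf]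
      exact Cardinal.ord_lt_ord.2 hc
    obtain ⟨j, hj⟩ := Ordinal.lt_lsub_iff.1 h1
    refine ⟨e.symm j, ?_⟩
    simp only [h, Equiv.apply_symm_apply]
    exact Cardinal.ord_le.1 hj
  obtain ⟨al, hal⟩ := rec_choice (ι := I) (β := Cardinal.{u}) (r := (· < ·)) wellFounded_lt
    (fun i g b => b < lam ∧ h i ≤ b ∧
      ∃ c, ℵ₀ ≤ c ∧ #I ≤ c ∧ c < b ∧ ∀ j < i, Order.succ (g j) ≤ c)
    (by
      rintro i g g' b hgg ⟨h1, h2, c, h3, h4, h5, h6⟩
      refine ⟨h1, h2, c, h3, h4, h5, fun j hj => ?_⟩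
      rw [← hgg j hj]
      exact h6 j hj)
    (by
      intro i g hg
      have h1 : (⨆ j : Iio i, Order.succ (g j.1)) < lam := by
        refine Cardinal.iSup_lt_of_lt_cof_ord ?_ ?_
        · exact (Cardinal.mk_Iio_lt i (by rw [hcardI]; simp [I])).trans_eq hcardI
        · rintro ⟨j, hj⟩
          exact hsucc _ (hg j hj).1
      let c : Cardinal.{u} := max (max ℵ₀ #I) (⨆ j : Iio i, Order.succ (g j.1))
      have hc : c < lam := max_lt (max_lt h00 hIlt) h1
      refine ⟨max (Order.succ c) (h i), max_lt (hsucc _ hc) (hh i), le_max_right _ _, c,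
        (le_max_left _ _).trans (le_max_left _ _), (le_max_right _ _).trans (le_max_left _ _),
        (Order.lt_succ c).trans_le (le_max_left _ _), ?_⟩
      intro j hj
      refine le_trans ?_ (le_max_right _ _)
      exact le_ciSup (f := fun j : Iio i => Order.succ (g j.1)) (Cardinal.bddAbove_range _) ⟨j, hj⟩)
  refine ⟨{
    al := al
    inf := fun i => ?_
    card := fun i => ?_
    succ_le := fun i j hij => ?_
    below := fun i => ?_
    lt := fun i => (hal i).1
    succ_lt := fun i => (hsucc _ (hal i).1).le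
    sup := fun c hc => ?_
    pow := fun i => (hl _ (hal i).1).le
    base := h0
    cardI := hIlt.le }⟩
  · obtain ⟨c, h3, h4, h5, h6⟩ := (hal i).2.2
    exact h3.trans h5.le
  · obtain ⟨c, h3, h4, h5, h6⟩ := (hal i).2.2
    exact h4.trans h5.le
  · obtain ⟨c, h3, h4, h5, h6⟩ := (hal j).2.2
    exact (h6 i hij).trans h5.le
  · obtain ⟨c, h3, h4, h5, h6⟩ := (hal i).2.2
    exact ⟨c, h3, h4, h5, fun j hj => (Order.le_succ _).trans (h6 j hj)⟩
  · by_contra hcon
    rw [not_le] at hcon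
    obtain ⟨i, hi⟩ := hcof _ (hsucc c hcon)
    exact absurd ((hi.trans (hal i).2.1).trans (hc i)) (not_le.2 (Order.lt_succ c))

/-- the set mapping on any set of cardinality `lam⁺` -/
theorem mapping {lam : Cardinal.{u}} (hs : lam.IsSingular)
    (hl : ∀ κ < lam, (2 : Cardinal.{u}) ^ κ < lam)
    (hpow : (2 : Cardinal.{u}) ^ lam = Order.succ lam) (S : Type u) (hS : #S = Order.succ lam) :
    ∃ f : S → Set S, (∀ x, x ∉ f x) ∧ (∀ x, #(f x) ≤ lam) ∧
      (∀ x y, x ≠ y → #(f x ∩ f y : Set S) < lam) ∧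
      ∀ Y : Set S, (∀ x ∈ Y, ∀ y ∈ Y, x ≠ y → x ∉ f y) → #Y ≤ lam := by
  classical
  obtain ⟨F⟩ := exists_fil hs hl
  set K : Type u := (Order.succ lam).ord.ToType with hKdef
  have hK : #K = Order.succ lam := Cardinal.mk_ord_toType _
  have hI : ∀ a : K, #(Iio a) ≤ lam := by
    intro a
    have h := Cardinal.mk_Iio_lt a (by rw [hK]; simp [K])
    rw [hK] at h
    exact Order.lt_succ_iff.1 h
  have hne : Nonempty K := by
    rw [← Cardinal.mk_ne_zero_iff, hK]
    exact (Cardinal.succ_pos _).ne'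
  obtain ⟨N, hN1, hN2, hN3⟩ := core F hpow hK hI
  obtain ⟨e⟩ : Nonempty (S ≃ K) := Cardinal.eq.1 (hS.trans hK.symm)
  have hcard : ∀ A : Set K, #(e ⁻¹' A : Set S) = #A := by
    intro A
    exact Cardinal.mk_preimage_equiv e A
  refine ⟨fun x => e ⁻¹' N (e x), ?_, ?_, ?_, ?_⟩
  · intro x hx
    exact lt_irrefl (e x) (hN1 (e x) hx)
  · intro x
    rw [hcard]
    exact small_mono (hN1 (e x)) (hI (e x))
  · intro x y hxy
    rw [← preimage_inter, hcard]
    rcases lt_or_gt_of_ne (fun h => hxy (e.injective h) : e x ≠ e y) with h | h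
    · rw [inter_comm]
      exact hN3 _ _ h
    · exact hN3 _ _ h
  · intro Y hY
    by_contra hbig
    have hbig' : ¬ #(e.symm ⁻¹' Y : Set K) ≤ lam := by
      rw [Cardinal.mk_preimage_equiv]
      exact hbig
    obtain ⟨α, hα, x, hx, hxα⟩ := hN2 (e.symm ⁻¹' Y) (by
      intro γ
      by_contra hcon
      push Not at hcon
      apply hbig'
      refine small_mono (t := Iio γ ∪ {γ}) ?_ (small_union F.base (hI γ)
        (small_subsingleton F.base subsingleton_singleton))
      intro y hy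
      rcases lt_or_eq_of_le (hcon y hy) with h | h
      · exact Or.inl h
      · exact Or.inr h)
    have hlt : x < α := hN1 α hxα
    refine hY (e.symm x) hx (e.symm α) hα (fun h => hlt.ne (e.symm.injective h)) ?_
    show e (e.symm x) ∈ N (e (e.symm α))
    rw [e.apply_symm_apply, e.apply_symm_apply]
    exact hxα

end Pool.Agent.W907.FreeSet
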