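import Pool.Agent.W907.FreeSet.Guess

set_option autoImplicit false
set_option linter.unusedSectionVars false

namespace Pool.Agent.W907.FreeSet

open Cardinal Set

universe u

section
variable {lam : Cardinal.{u}} {I : Type u} [LinearOrder I] {F : Fil lam I}
variable {K : Type u} [LinearOrder K] [WellFoundedLT K]

/-- the down-neighbourhood -/
def Nb (X : K → I → Set K) (β : K) : Set K := ⋃ m, X β m

/-- the invariants at `α` -/
structure Inv (D : DSys F K) (E : I → K → Set K) (α : K) (X : K → I → Set K) (Y : I → Set K) :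
    Prop where
  sub : ∀ n, Y n ⊆ Iio α
  card : ∀ n, #(Y n) ≤ F.al n
  disj : ∀ n, ∀ β ∈ D.D n α, ∀ x ∈ Y n, x ∉ Nb X β
  ladder : ∀ n m δ, Good D m δ (E m δ) → #(Y n ∩ E m δ : Set K) ≤ F.al m
  indep : ∀ n, ∀ x ∈ Y n, ∀ y ∈ Y n, x ∉ Nb X y
  hit : ∀ n, ∀ δ ∈ D.D n α, Good D n δ (E n δ) → ∃ x ∈ Y n, x ∈ E n δ

theorem good_bounded {D : DSys F K} {n : I} {δ : K} {E : Set K} (h : Good D n δ E) (γ : K)
    (hγ : γ < δ) : #(E ∩ Iic γ : Set K) ≤ F.al n := by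
  obtain ⟨b, hb, hγb⟩ := h.cof γ hγ
  refine small_mono ?_ (D.card n b)
  rintro x ⟨hx, hxγ⟩
  exact h.init b hb ⟨hx, lt_of_le_of_lt hxγ hγb⟩

theorem nb_ladder {D : DSys F K} {E : I → K → Set K} {α : K} {X : K → I → Set K}
    (h : Inv D E α X (X α)) (m : I) (δ : K) (hδ : Good D m δ (E m δ)) :
    #(Nb X α ∩ E m δ : Set K) ≤ F.al m := by
  have : Nb X α ∩ E m δ = ⋃ n, X α n ∩ E m δ := by
    unfold Nb
    rw [iUnion_inter]
  rw [this]
  exact small_iUnion (F.inf m) (F.card m) _ (fun n => h.ladder n m δ hδ)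

theorem nb_sub {D : DSys F K} {E : I → K → Set K} {α : K} {X : K → I → Set K}
    (h : Inv D E α X (X α)) : Nb X α ⊆ Iio α := by
  intro x hx
  obtain ⟨n, hn⟩ := mem_iUnion.1 hx
  exact h.sub n hn

/-- thinning out a ladder -/
theorem thin {D : DSys F K} {E : I → K → Set K} {X : K → I → Set K} {n : I} {δ : K}
    (hX : ∀ β < δ, Inv D E β X (X β)) (hδ : Good D n δ (E n δ)) :
    ∃ T R : Set K, T ⊆ E n δ ∧ (¬ #T ≤ F.al n) ∧ #R ≤ F.al n ∧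
      ∀ x, x ∉ R → #{b ∈ T | x ∈ Nb X b} ≤ F.al n := by
  have hZ : ∀ b : E n δ, #(⋃ m ∈ Iio n, X b.1 m : Set K) < F.al n := by
    intro b
    have hb : b.1 < δ := hδ.sub b.2
    obtain ⟨c, hc0, hcI, hcn, hc⟩ := F.below n
    refine lt_of_le_of_lt ?_ hcn
    refine small_biUnion hc0 (Iio n) ((Cardinal.mk_set_le _).trans hcI) _ ?_
    intro m hm
    exact ((hX b.1 hb).card m).trans (hc m hm)
  obtain ⟨T, R, hT, hR, hTR⟩ := weak_delta (F.inf n) hδ.not_small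
    (fun b : E n δ => ⋃ m ∈ Iio n, X b.1 m) hZ
  refine ⟨Subtype.val '' T, R, ?_, ?_, hR, ?_⟩
  · rintro x ⟨b, _, rfl⟩
    exact b.2
  · rw [Cardinal.mk_image_eq Subtype.val_injective]
    exact hT
  · intro x hx
    -- the set of all `b` with `x ∈ Nb X b`
    by_cases hne : {b ∈ Subtype.val '' T | x ∈ Nb X b}.Nonempty
    · have hwf : WellFounded ((· < ·) : K → K → Prop) := wellFounded_lt
      obtain ⟨b0, hb0, hmin⟩ : ∃ b0 ∈ {b ∈ Subtype.val '' T | x ∈ Nb X b},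
          ∀ b ∈ {b ∈ Subtype.val '' T | x ∈ Nb X b}, b0 ≤ b :=
        ⟨hwf.min _ hne, hwf.min_mem _ hne, fun b hb => not_lt.1 (hwf.not_lt_min _ hb)⟩
      refine small_mono (t := {b0} ∪ {b | ∃ h : b ∈ E n δ, (⟨b, h⟩ : E n δ) ∈ T ∧
          x ∈ ⋃ m ∈ Iio n, X b m}) ?_ (small_union (F.inf n) ?_ ?_)
      · rintro b hb
        rcases eq_or_lt_of_le (hmin b hb) with h | h
        · exact Or.inl h.symm
        · right
          obtain ⟨⟨b', hb'T, hb'⟩, hxb⟩ := hb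
          obtain ⟨⟨b0', hb0'T, hb0'⟩, hxb0⟩ := hb0
          subst hb'
          subst hb0'
          refine ⟨b'.2, hb'T, ?_⟩
          obtain ⟨m, hm⟩ := mem_iUnion.1 hxb
          simp only [mem_iUnion]
          refine ⟨m, ?_, hm⟩
          by_contra hmn
          have hmn' : n ≤ m := not_lt.1 hmn
          have h1 : b0'.1 ∈ D.D m b'.1 := D.mono n m _ hmn' (hδ.init b'.1 b'.2 ⟨b0'.2, h⟩)
          exact (hX b'.1 (hδ.sub b'.2)).disj m b0'.1 h1 x hm hxb0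
      · exact small_subsingleton (F.inf n) subsingleton_singleton
      · refine small_subsingleton (F.inf n) ?_
        rintro b ⟨hb, hbT, hxb⟩ b' ⟨hb', hb'T, hxb'⟩
        by_contra hne
        exact hx (hTR _ hbT _ hb'T (fun h => hne (Subtype.ext_iff.1 h)) ⟨hxb, hxb'⟩)
    · rw [not_nonempty_iff_eq_empty] at hne
      rw [hne]
      simp

/-- accumulation points -/
def Acc (Δ : Set K) : Set K := {δ | ∀ ξ < δ, ∃ x ∈ Δ, ξ < x ∧ x < δ}

theorem mk_Acc {c : Cardinal.{u}} (hc : ℵ₀ ≤ c) (Δ : Set K) (hΔ : #Δ ≤ c) : #(Acc Δ) ≤ c := by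
  have h : Acc Δ ⊆ (⋃ x ∈ Δ, {δ ∈ Acc Δ | δ ≤ x ∧ ∀ y ∈ Δ, δ ≤ y → x ≤ y}) ∪
      {δ ∈ Acc Δ | ∀ y ∈ Δ, y < δ} := by
    intro δ hδ
    by_cases hne : {y ∈ Δ | δ ≤ y}.Nonempty
    · left
      have hwf : WellFounded ((· < ·) : K → K → Prop) := wellFounded_lt
      simp only [mem_iUnion]
      refine ⟨hwf.min _ hne, (hwf.min_mem _ hne).1, hδ, (hwf.min_mem _ hne).2, ?_⟩
      intro y hy hδy
      exact not_lt.1 (hwf.not_lt_min {y ∈ Δ | δ ≤ y} ⟨hy, hδy⟩)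
    · right
      refine ⟨hδ, ?_⟩
      intro y hy
      by_contra h
      exact hne ⟨y, hy, not_lt.1 h⟩
  refine small_mono h (small_union hc (small_biUnion hc Δ hΔ _ ?_) ?_)
  · intro x _
    refine small_subsingleton hc ?_
    have key : ∀ δ₁ δ₂ : K, δ₁ ∈ {δ ∈ Acc Δ | δ ≤ x ∧ ∀ y ∈ Δ, δ ≤ y → x ≤ y} →
        δ₂ ∈ {δ ∈ Acc Δ | δ ≤ x ∧ ∀ y ∈ Δ, δ ≤ y → x ≤ y} → ¬ δ₁ < δ₂ := by
      rintro δ₁ δ₂ ⟨_, _, h1⟩ ⟨h2, h3, _⟩ hlt
      obtain ⟨y, hy, hy1, hy2⟩ := h2 δ₁ hlt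
      exact absurd (h1 y hy hy1.le) (not_le.2 (hy2.trans_le h3))
    intro δ₁ h1 δ₂ h2
    rcases lt_trichotomy δ₁ δ₂ with h | h | h
    · exact absurd h (key _ _ h1 h2)
    · exact h
    · exact absurd h (key _ _ h2 h1)
  · refine small_subsingleton hc ?_
    have key : ∀ δ₁ δ₂ : K, δ₁ ∈ {δ ∈ Acc Δ | ∀ y ∈ Δ, y < δ} →
        δ₂ ∈ {δ ∈ Acc Δ | ∀ y ∈ Δ, y < δ} → ¬ δ₁ < δ₂ := by
      rintro δ₁ δ₂ ⟨_, h1⟩ ⟨h2, _⟩ hlt
      obtain ⟨y, hy, hy1, _⟩ := h2 δ₁ hlt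
      exact absurd (h1 y hy) (not_lt.2 hy1.le)
    intro δ₁ h1 δ₂ h2
    rcases lt_trichotomy δ₁ δ₂ with h | h | h
    · exact absurd h (key _ _ h1 h2)
    · exact h
    · exact absurd h (key _ _ h2 h1)

/-- one step of the construction -/
theorem step_one [Nonempty K] {D : DSys F K} {E : I → K → Set K} {X : K → I → Set K} {α : K}
    (hX : ∀ β < α, Inv D E β X (X β)) (n : I) :
    ∃ Y : Set K, Y ⊆ Iio α ∧ #Y ≤ F.al n ∧ (∀ β ∈ D.D n α, ∀ x ∈ Y, x ∉ Nb X β) ∧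
      (∀ m δ, Good D m δ (E m δ) → #(Y ∩ E m δ : Set K) ≤ F.al m) ∧
      (∀ x ∈ Y, ∀ y ∈ Y, x ∉ Nb X y) ∧
      (∀ δ ∈ D.D n α, Good D n δ (E n δ) → ∃ x ∈ Y, x ∈ E n δ) := by
  classical
  have hc := F.inf n
  let Δ : Set K := {δ | δ ∈ D.D n α ∧ Good D n δ (E n δ)}
  have hΔcard : #Δ ≤ F.al n := small_mono (fun δ hδ => hδ.1) (D.card n α)
  have hΔα : ∀ δ ∈ Δ, δ < α := fun δ hδ => D.sub n α hδ.1
  have hthin : ∀ δ : Δ, ∃ T R : Set K, T ⊆ E n δ.1 ∧ (¬ #T ≤ F.al n) ∧ #R ≤ F.al n ∧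
      ∀ x, x ∉ R → #{b ∈ T | x ∈ Nb X b} ≤ F.al n :=
    fun δ => thin (fun β hβ => hX β (hβ.trans (hΔα δ.1 δ.2))) δ.2.2
  choose T R hTE hT hR hTR using hthin
  -- the bad set
  let Bad : Set K := (⋃ δ : Δ, R δ) ∪
    ⋃ m ∈ Iio n, ⋃ δ ∈ {δ ∈ Acc Δ | Good D m δ (E m δ)}, E m δ
  have hBad : #Bad ≤ F.al n := by
    refine small_union hc (small_iUnion hc hΔcard _ hR) ?_
    refine small_biUnion hc (Iio n) ((Cardinal.mk_set_le _).trans (F.card n)) _ ?_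
    intro m hm
    refine small_biUnion hc _ (small_mono (fun δ hδ => hδ.1) (mk_Acc hc Δ hΔcard)) _ ?_
    intro δ hδ
    exact hδ.2.card_le.trans (F.succ_le m n hm)
  let T' : Δ → Set K := fun δ => {b ∈ T δ | b ∉ Bad ∧ (∀ β ∈ D.D n α, b ∉ Nb X β) ∧
    ∀ δ' ∈ Δ, δ' < δ.1 → δ' < b}
  have hT' : ∀ δ, ¬ #(T' δ) ≤ F.al n := by
    intro δ h
    have h1 : ¬ #(T δ \ (Bad ∪ ((⋃ β ∈ D.D n α, (Nb X β ∩ E n δ.1)) ∪
        ⋃ δ' ∈ {δ' ∈ Δ | δ' < δ.1}, (E n δ.1 ∩ Iic δ'))) : Set K) ≤ F.al n := by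
      refine not_small_diff hc (hT δ) (small_union hc hBad (small_union hc ?_ ?_))
      · refine small_biUnion hc _ (D.card n α) _ ?_
        intro β hβ
        exact nb_ladder (hX β (D.sub n α hβ)) n δ.1 δ.2.2
      · refine small_biUnion hc _ (small_mono (fun x hx => hx.1) hΔcard) _ ?_
        intro δ' hδ'
        exact good_bounded δ.2.2 δ' hδ'.2
    apply h1
    refine small_mono ?_ h
    rintro b ⟨hb, hb2⟩
    simp only [mem_union, mem_iUnion, not_or, not_exists] at hb2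
    obtain ⟨hb3, hb4, hb5⟩ := hb2
    refine ⟨hb, ?_, ?_, ?_⟩
    · simpa [Bad] using hb3
    · intro β hβ hbβ
      exact hb4 β hβ ⟨hbβ, hTE δ hb⟩
    · intro δ' hδ' hlt
      by_contra hnot
      exact hb5 δ' ⟨hδ', hlt⟩ ⟨hTE δ hb, not_lt.1 hnot⟩
  obtain ⟨x, hx1, hx2⟩ := exists_indep_transversal hc hΔcard T' hT' (fun x b => x ∈ Nb X b) (by
    intro i j _ x hx
    have hxα : x < α := (i.2.2.sub.trans (Iio_subset_Iio (hΔα i.1 i.2).le) : _) |> fun _ =>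
      (j.2.2.sub (hTE j hx.1)).trans (hΔα j.1 j.2)
    have hxR : x ∉ R i := by
      intro h
      exact hx.2.1 (Or.inl (mem_iUnion.2 ⟨i, h⟩))
    refine small_mono (t := {b ∈ T i | x ∈ Nb X b} ∪ (Nb X x ∩ E n i.1)) ?_
      (small_union hc (hTR i x hxR) (nb_ladder (hX x hxα) n i.1 i.2.2))
    rintro b ⟨hb, hb2 | hb2⟩
    · exact Or.inl ⟨hb.1, hb2⟩
    · exact Or.inr ⟨hb2, hTE i hb.1⟩)
  have hxE : ∀ δ : Δ, x δ ∈ E n δ.1 := fun δ => hTE δ (hx1 δ).1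
  have hxlt : ∀ δ : Δ, x δ < δ.1 := fun δ => δ.2.2.sub (hxE δ)
  have hxα : ∀ δ : Δ, x δ < α := fun δ => (hxlt δ).trans (hΔα δ.1 δ.2)
  have hrange : #(range x) ≤ F.al n := Cardinal.mk_range_le.trans hΔcard
  refine ⟨range x, ?_, hrange, ?_, ?_, ?_, ?_⟩
  · rintro _ ⟨δ, rfl⟩
    exact hxα δ
  · rintro β hβ _ ⟨δ, rfl⟩
    exact (hx1 δ).2.2.1 β hβ
  · intro m δ' hδ'
    by_cases hmn : n ≤ m
    · exact (small_mono inter_subset_left hrange).trans (F.mono hmn)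
    · have hmn' : m < n := not_le.1 hmn
      have hcm := F.inf m
      by_cases hacc : δ' ∈ Acc Δ
      · have : (range x ∩ E m δ' : Set K) = ∅ := by
          rw [← not_nonempty_iff_eq_empty]
          rintro ⟨_, ⟨δ, rfl⟩, h⟩
          apply (hx1 δ).2.1
          right
          simp only [mem_iUnion]
          exact ⟨m, hmn', δ', ⟨hacc, hδ'⟩, h⟩
        rw [this]
        simp
      · unfold Acc at hacc
        simp only [mem_ofPred_eq] at hacc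
        push Not at hacc
        obtain ⟨ξ, hξ, hξ2⟩ := hacc
        refine small_mono (t := (E m δ' ∩ Iic ξ) ∪ {y | (∃ δ, x δ = y) ∧ ξ < y ∧ y < δ'}) ?_
          (small_union hcm (good_bounded hδ' ξ hξ) (small_subsingleton hcm ?_))
        · rintro y ⟨hy1, hy2⟩
          by_cases h : y ≤ ξ
          · exact Or.inl ⟨hy2, h⟩
          · exact Or.inr ⟨hy1, not_le.1 h, hδ'.sub hy2⟩
        · have key : ∀ δ₁ δ₂ : Δ, δ₁.1 < δ₂.1 → ξ < x δ₁ → x δ₂ < δ' → False := by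
            intro δ₁ δ₂ hlt h1 h2
            have h3 : δ' ≤ δ₁.1 := hξ2 δ₁.1 δ₁.2 (h1.trans (hxlt δ₁))
            have h4 : δ₁.1 < x δ₂ := (hx1 δ₂).2.2.2 δ₁.1 δ₁.2 hlt
            exact absurd (h4.trans h2) (not_lt.2 h3)
          rintro _ ⟨⟨δ₁, rfl⟩, h1, h2⟩ _ ⟨⟨δ₂, rfl⟩, h3, h4⟩
          rcases lt_trichotomy δ₁.1 δ₂.1 with h | h | h
          · exact (key δ₁ δ₂ h h1 h4).elim
          · rw [Subtype.ext h]
          · exact (key δ₂ δ₁ h h3 h2).elim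
  · rintro _ ⟨δ₁, rfl⟩ _ ⟨δ₂, rfl⟩ hmem
    by_cases h : δ₁ = δ₂
    · subst h
      exact lt_irrefl _ (nb_sub (hX _ (hxα δ₁)) hmem)
    · exact hx2 δ₁ δ₂ h hmem
  · intro δ hδ hgood
    exact ⟨x ⟨δ, hδ, hgood⟩, ⟨_, rfl⟩, hxE ⟨δ, hδ, hgood⟩⟩

theorem exists_graph [Nonempty K] (D : DSys F K) (E : I → K → Set K) :
    ∃ X : K → I → Set K, ∀ α, Inv D E α X (X α) := by
  have hNb : ∀ (f g : K → I → Set K) (β : K), f β = g β → Nb f β = Nb g β := by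
    intro f g β h
    unfold Nb
    rw [h]
  obtain ⟨X, hX⟩ := rec_choice (ι := K) (β := I → Set K) (r := (· < ·)) wellFounded_lt
    (fun α f Y => Inv D E α f Y)
    (by
      intro α f g Y hfg h
      refine ⟨h.sub, h.card, ?_, h.ladder, ?_, h.hit⟩
      · intro n β hβ x hx
        rw [← hNb f g β (hfg β (D.sub n α hβ))]
        exact h.disj n β hβ x hx
      · intro n x hx y hy
        rw [← hNb f g y (hfg y (h.sub n hy))]
        exact h.indep n x hx y hy)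
    (by
      intro α f hf
      choose Y h1 h2 h3 h4 h5 h6 using fun n => step_one (D := D) (E := E) (X := f) (α := α) hf n
      exact ⟨Y, h1, h2, h3, fun n m δ hδ => h4 n m δ hδ, h5, h6⟩)
  exact ⟨X, hX⟩

end

end Pool.Agent.W907.FreeSet
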