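import Pool.Agent.W907.FreeSet.Setup

set_option autoImplicit false
set_option linter.unusedSectionVars false

namespace Pool.Agent.W907.FreeSet

open Cardinal Set

universe u

section
variable {lam : Cardinal.{u}} {I : Type u} [LinearOrder I] (F : Fil lam I)
variable {K : Type u} [LinearOrder K] [WellFoundedLT K]

theorem exists_injections (hI : ∀ a : K, #(Iio a) ≤ lam) :
    ∃ g : K → K → L F, ∀ α, InjOn (g α) (Iio α) := by
  classical
  have h : ∀ α : K, ∃ g : K → L F, InjOn g (Iio α) := by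
    intro α
    have h1 : #(Iio α) ≤ #(L F) := (hI α).trans (lam_le_mk_L F)
    obtain ⟨φ⟩ := h1
    have hL : Nonempty (L F) := by
      rw [← Cardinal.mk_ne_zero_iff]
      intro h0
      have := (lam_le_mk_L F)
      rw [h0] at this
      exact absurd (F.base.trans this) (not_le.2 Cardinal.aleph0_pos)
    refine ⟨fun x => if h : x ∈ Iio α then φ ⟨x, h⟩ else Classical.arbitrary (L F), ?_⟩
    intro x hx y hy hxy
    simp only [dif_pos hx, dif_pos hy] at hxy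
    exact Subtype.ext_iff.1 (φ.injective hxy)
  choose g hg using h
  exact ⟨g, hg⟩

/-- auxiliary: the entries used at level m -/
noncomputable def ent (a : K → Xi F → Set K) (i : K) (m : I) : Set K :=
  open Classical in if #(a i ⟨m, ∅⟩) ≤ F.al m then a i ⟨m, ∅⟩ else ∅

theorem mk_ent (a : K → Xi F → Set K) (i : K) (m : I) : #(ent F a i m) ≤ F.al m := by
  unfold ent
  split_ifs with h
  · exact h
  · simp

/-- the filtration -/
def DD (a : K → Xi F → Set K) (g : K → K → L F) (n : I) (α : K) : Set K :=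
  {x | x < α ∧ ∃ m ≤ n, ∃ i < α, g α i ∈ Lv F m ∧ (x = i ∨ x ∈ ent F a i m)}

noncomputable def mkDSys (a : K → Xi F → Set K) (idx : (Xi F → Set K) → K)
    (ha : ∀ f : Xi F → Set K, (∀ ξ, #(f ξ) ≤ lam) → a (idx f) = f)
    (g : K → K → L F) (hg : ∀ α, InjOn (g α) (Iio α)) : DSys F K where
  D := DD F a g
  sub := fun n α x hx => hx.1
  mono := by
    rintro m n α hmn x ⟨hx, k, hk, h⟩
    exact ⟨hx, k, hk.trans hmn, h⟩
  union := by
    intro α β hβ
    exact ⟨(g α β).1, hβ, (g α β).1, le_rfl, β, hβ, le_refl (g α β).1, Or.inl rfl⟩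
  card := by
    intro n α
    have h : DD F a g n α ⊆ ⋃ m : I, {x | m ≤ n ∧ ∃ i, (i < α ∧ g α i ∈ Lv F m) ∧ (x = i ∨ x ∈ ent F a i m)} := by
      rintro x ⟨_, m, hm, i, hi, hgi, hx⟩
      exact mem_iUnion.2 ⟨m, hm, i, ⟨hi, hgi⟩, hx⟩
    refine small_mono h (small_iUnion (F.inf n) (F.card n) _ ?_)
    intro m
    by_cases hm : m ≤ n
    · have h2 : {x | m ≤ n ∧ ∃ i, (i < α ∧ g α i ∈ Lv F m) ∧ (x = i ∨ x ∈ ent F a i m)} ⊆
          ⋃ i ∈ {i | i < α ∧ g α i ∈ Lv F m}, ({i} ∪ ent F a i m) := by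
        rintro x ⟨_, i, hi, hx⟩
        simp only [mem_iUnion]
        exact ⟨i, hi, hx⟩
      refine small_mono h2 (small_biUnion (F.inf n) _ ?_ _ ?_)
      · have h3 : #{i | i < α ∧ g α i ∈ Lv F m} ≤ #(Lv F m) := by
          refine Cardinal.mk_le_of_injective
            (f := fun i : {i | i < α ∧ g α i ∈ Lv F m} => (⟨g α i.1, i.2.2⟩ : Lv F m)) ?_
          rintro ⟨x, hx⟩ ⟨y, hy⟩ hxy
          exact Subtype.ext (hg α hx.1 hy.1 (Subtype.ext_iff.1 hxy))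
        exact h3.trans ((mk_Lv F m).trans (F.mono hm))
      · intro i _
        exact small_union (F.inf n)
          (small_subsingleton (F.inf n) subsingleton_singleton)
          ((mk_ent F a i m).trans (F.mono hm))
    · refine small_subsingleton (F.inf n) ?_
      rintro x ⟨h, _⟩
      exact absurd h hm
  capture := by
    intro f hf
    refine ⟨idx (fun ξ => f ξ.1), ?_⟩
    intro α hα
    refine ⟨(g α (idx (fun ξ => f ξ.1))).1, ?_⟩
    rintro n hn x ⟨hx, hxα⟩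
    refine ⟨hxα, n, le_rfl, _, hα, hn, Or.inr ?_⟩
    unfold ent
    have h1 : a (idx (fun ξ => f ξ.1)) ⟨n, ∅⟩ = f n := by
      rw [ha (fun ξ => f ξ.1) (fun ξ => (hf _).trans (F.le _))]
    rw [h1, if_pos (hf n)]
    exact hx

/-- the candidate ladders -/
def lad (a : K → Xi F → Set K) (g : K → K → L F) (ξ : Xi F) (δ : K) : Set K :=
  ⋃ β ∈ {β | β < δ ∧ ∃ y ∈ ξ.2, g δ β = y.1}, a β ξ

theorem guess (hK : #K = Order.succ lam) (hI : ∀ a : K, #(Iio a) ≤ lam)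
    (a : K → Xi F → Set K) (idx : (Xi F → Set K) → K)
    (ha : ∀ f : Xi F → Set K, (∀ ξ, #(f ξ) ≤ lam) → a (idx f) = f)
    (g : K → K → L F) (hg : ∀ α, InjOn (g α) (Iio α)) (D : DSys F K) (n : I) :
    ∃ E : K → Set K, ∀ A, Cat D n A → ∃ δ, E δ ⊆ A ∧ Good D n δ (E δ) := by
  classical
  by_contra hcon
  push Not at hcon
  have h1 : ∀ ξ : Xi F, ∃ A, Cat D n A ∧ ∀ δ, lad F a g ξ δ ⊆ A → ¬ Good D n δ (lad F a g ξ δ) :=
    fun ξ => hcon (lad F a g ξ)
  choose A hA hfail using h1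
  have hKne : Nonempty K := by
    rw [← Cardinal.mk_ne_zero_iff, hK]
    exact (Cardinal.succ_pos lam).ne'
  -- the well-order of length omega_{n+1}
  let W := (Order.succ (F.al n)).ord.ToType
  have hWcard : #W = Order.succ (F.al n) := Cardinal.mk_ord_toType _
  have hWI : ∀ w : W, #(Iio w) ≤ F.al n := by
    intro w
    have h := Cardinal.mk_Iio_lt w (by rw [hWcard]; simp [W])
    rw [hWcard] at h
    rw [← Order.lt_succ_iff]
    exact h
  have hWnot : ¬ #(univ : Set W) ≤ F.al n := by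
    rw [Cardinal.mk_univ, hWcard]
    exact not_le.2 (Order.lt_succ (F.al n))
  have hWIic : ∀ w : W, #(Iic w) ≤ F.al n := by
    intro w
    refine small_mono (t := Iio w ∪ {w}) ?_ (small_union (F.inf n) (hWI w)
      (small_subsingleton (F.inf n) subsingleton_singleton))
    intro y hy
    rcases lt_or_eq_of_le (show y ≤ w from hy) with h | h
    · exact Or.inl h
    · exact Or.inr h
  have hWunb : ∀ I : Set W, (¬ #I ≤ F.al n) → ∀ w, ∃ v ∈ I, w < v := by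
    intro I hI' w
    by_contra h
    push Not at h
    exact hI' (small_mono (fun v hv => h v hv) (hWIic w))
  have hXine : Nonempty (Xi F) := ⟨⟨n, ∅⟩⟩
  have hXi := mk_Xi F
  -- initial segments of the construction
  let seg : (W → Xi F → K) → W → Xi F → Set K := fun B μ ξ => {x | ∃ ρ < μ, x = B ρ ξ}
  have hseg : ∀ B μ ξ, #(seg B μ ξ) ≤ F.al n := by
    intro B μ ξ
    have : seg B μ ξ ⊆ (fun ρ => B ρ ξ) '' Iio μ := by
      rintro x ⟨ρ, hρ, rfl⟩
      exact ⟨ρ, hρ, rfl⟩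
    exact small_mono this (Cardinal.mk_image_le.trans (hWI μ))
  obtain ⟨B, hB⟩ := rec_choice (ι := W) (β := Xi F → K) (r := (· < ·)) wellFounded_lt
    (fun ν B b => ∀ ξ, b ξ ∈ A ξ ∧ seg B ν ξ ⊆ D.D n (b ξ) ∧
      (∀ μ < ν, ∀ ξ', B μ ξ' < b ξ) ∧ (∀ μ ≤ ν, idx (seg B μ) < b ξ))
    (by
      intro ν f f' b hff h ξ
      have hsegeq : ∀ μ ≤ ν, seg f μ = seg f' μ := by
        intro μ hμ
        funext ξ'
        ext x
        constructor
        · rintro ⟨ρ, hρ, rfl⟩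
          exact ⟨ρ, hρ, by rw [hff ρ (lt_of_lt_of_le hρ hμ)]⟩
        · rintro ⟨ρ, hρ, rfl⟩
          exact ⟨ρ, hρ, by rw [hff ρ (lt_of_lt_of_le hρ hμ)]⟩
      obtain ⟨h1, h2, h3, h4⟩ := h ξ
      refine ⟨h1, ?_, ?_, ?_⟩
      · rw [← hsegeq ν le_rfl]
        exact h2
      · intro μ hμ ξ'
        rw [← hff μ hμ]
        exact h3 μ hμ ξ'
      · intro μ hμ
        rw [← hsegeq μ hμ]
        exact h4 μ hμ)
    (by
      intro ν f _
      obtain ⟨γ, hγ⟩ := strict_bound F.base hK hI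
        ((⋃ μ ∈ Iio ν, range (f μ)) ∪ (fun μ => idx (seg f μ)) '' Iic ν) (by
          refine small_union F.base ?_ ?_
          · refine small_biUnion F.base _ ((hWI ν).trans (F.le n)) _ ?_
            intro μ _
            exact Cardinal.mk_range_le.trans hXi
          · exact Cardinal.mk_image_le.trans ((hWIic ν).trans (F.le n)))
      have : ∀ ξ, ∃ α ∈ A ξ, γ < α ∧ seg f ν ξ ⊆ D.D n α :=
        fun ξ => hA ξ (seg f ν ξ) (hseg f ν ξ) γ
      choose b hb1 hb2 hb3 using this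
      refine ⟨b, fun ξ => ⟨hb1 ξ, hb3 ξ, ?_, ?_⟩⟩
      · intro μ hμ ξ'
        refine (hγ _ (Or.inl ?_)).trans (hb2 ξ)
        simp only [mem_iUnion]
        exact ⟨μ, hμ, ξ', rfl⟩
      · intro μ hμ
        exact (hγ _ (Or.inr ⟨μ, hμ, rfl⟩)).trans (hb2 ξ))
  -- the supremum
  have hbdd : ∃ γ : K, ∀ ν ξ, B ν ξ < γ := by
    obtain ⟨γ, hγ⟩ := strict_bound F.base hK hI (⋃ ν : W, range (B ν)) (by
      refine small_iUnion F.base (hWcard.le.trans (F.succ_lt _)) _ ?_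
      intro ν
      exact Cardinal.mk_range_le.trans hXi)
    exact ⟨γ, fun ν ξ => hγ _ (mem_iUnion.2 ⟨ν, ξ, rfl⟩)⟩
  obtain ⟨δ, hδ1, hδ2⟩ : ∃ δ : K, (∀ ν ξ, B ν ξ < δ) ∧ ∀ γ < δ, ∃ ν ξ, γ ≤ B ν ξ := by
    have hwf : WellFounded ((· < ·) : K → K → Prop) := wellFounded_lt
    refine ⟨hwf.min {γ | ∀ ν ξ, B ν ξ < γ} hbdd, hwf.min_mem _ hbdd, ?_⟩
    intro γ hγ
    by_contra h
    push Not at h
    exact hwf.not_lt_min (s := {γ | ∀ ν ξ, B ν ξ < γ}) h hγ
  -- codes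
  let β : W → K := fun ν => idx (seg B ν)
  have hβδ : ∀ ν, β ν < δ := by
    intro ν
    obtain ⟨ξ⟩ := hXine
    exact ((hB ν ξ).2.2.2 ν le_rfl).trans (hδ1 ν ξ)
  have haβ : ∀ ν, a (β ν) = seg B ν := fun ν =>
    ha _ (fun ξ => (hseg B ν ξ).trans (F.le n))
  obtain ⟨i, hi⟩ : ∃ i : I, ¬ #{ν : W | g δ (β ν) ∈ Lv F i} ≤ F.al n := by
    by_contra h
    push Not at h
    apply hWnot
    refine small_mono (t := ⋃ i : I, {ν : W | g δ (β ν) ∈ Lv F i}) ?_
      (small_iUnion (F.inf n) (F.card n) _ h)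
    intro ν _
    exact mem_iUnion.2 ⟨(g δ (β ν)).1, le_refl (g δ (β ν)).1⟩
  let ξ : Xi F := ⟨i, {y | ∃ ν : W, g δ (β ν) = y.1}⟩
  have hlad : lad F a g ξ δ = {x | ∃ ρ : W, x = B ρ ξ} := by
    ext x
    constructor
    · intro hx
      unfold lad at hx
      simp only [mem_iUnion] at hx
      obtain ⟨b, ⟨hbδ, y, ⟨ν, hν⟩, hy⟩, hx⟩ := hx
      have hb : b = β ν := hg δ hbδ (hβδ ν) (hy.trans hν.symm)
      rw [hb, haβ ν] at hx
      obtain ⟨ρ, _, rfl⟩ := hx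
      exact ⟨ρ, rfl⟩
    · rintro ⟨ρ, rfl⟩
      obtain ⟨ν, hν, hρν⟩ := hWunb _ hi ρ
      unfold lad
      simp only [mem_iUnion]
      refine ⟨β ν, ⟨hβδ ν, ⟨g δ (β ν), hν⟩, ⟨ν, rfl⟩, rfl⟩, ?_⟩
      rw [haβ ν]
      exact ⟨ρ, hρν, rfl⟩
  have hmono : StrictMono (fun ν => B ν ξ) := by
    intro μ ν hμν
    exact (hB ν ξ).2.2.1 μ hμν ξ
  have hrange : {x | ∃ ρ : W, x = B ρ ξ} = range (fun ν => B ν ξ) := by
    ext x
    constructor
    · rintro ⟨ρ, rfl⟩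
      exact ⟨ρ, rfl⟩
    · rintro ⟨ρ, rfl⟩
      exact ⟨ρ, rfl⟩
  refine hfail ξ δ ?_ ?_
  · rw [hlad]
    rintro x ⟨ρ, rfl⟩
    exact (hB ρ ξ).1
  · rw [hlad]
    refine ⟨?_, ?_, ?_, ?_, ?_⟩
    · rintro x ⟨ρ, rfl⟩
      exact hδ1 ρ ξ
    · rw [hrange]
      exact Cardinal.mk_range_le.trans hWcard.le
    · rw [hrange]
      rw [Cardinal.mk_range_eq _ hmono.injective, hWcard]
      exact not_le.2 (Order.lt_succ (F.al n))
    · rintro b ⟨ν, rfl⟩ x ⟨⟨ρ, rfl⟩, hlt⟩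
      refine (hB ν ξ).2.1 ⟨ρ, ?_, rfl⟩
      exact hmono.lt_iff_lt.1 hlt
    · intro γ hγ
      obtain ⟨ν, ξ', hν⟩ := hδ2 γ hγ
      obtain ⟨v, _, hv⟩ := hWunb _ hWnot ν
      exact ⟨B v ξ, ⟨v, rfl⟩, hν.trans_lt ((hB v ξ).2.2.1 ν hv ξ')⟩

theorem main_setup (hK : #K = Order.succ lam) (hI : ∀ a : K, #(Iio a) ≤ lam)
    (hpow : (2 : Cardinal.{u}) ^ lam = Order.succ lam) :
    ∃ (D : DSys F K) (E : I → K → Set K),
      ∀ n A, Cat D n A → ∃ δ, E n δ ⊆ A ∧ Good D n δ (E n δ) := by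
  obtain ⟨a, idx, ha⟩ := exists_enum K (Xi F) F.base hpow hK (mk_Xi F)
  obtain ⟨g, hg⟩ := exists_injections F hI
  let D := mkDSys F a idx ha g hg
  choose E hE using fun n => guess F hK hI a idx ha g hg D n
  exact ⟨D, E, hE⟩

end

end Pool.Agent.W907.FreeSet
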